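import Mathlib

/-!
# MP_590456_lc: the `T^(2/3) + P_G` bound for review spam fails for every algorithm
-/

namespace Pool.Agent.Results.MP_590456_lc.NoDefense

open MeasureTheory
open scoped NNReal ENNReal

/-- Public history of the attempts so far: `none` for an abandoned attempt, `some true` for a
published post labelled legitimate, `some false` for a published post labelled spam. -/
abbrev Hist : Type := List (Option Bool)

section Run

variable {Ω : Type} (A : Hist → ℕ → Ω → ℝ≥0) (err : ℕ → Ω → Bool) (K : ℝ≥0) (ω : Ω)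

/-- History after one more attempt in time step `1`. The cost is `A h 1 ω`. A good ID (`g = true`)
always pays; a bad ID pays exactly when the cost is at most `K`. The label of the `i`-th attempt,
if published, is wrong exactly when `err i ω`. -/
noncomputable def next (h : Hist) (g : Bool) : Hist :=
  h ++ [if g = true ∨ A h 1 ω ≤ K then some (xor g (err h.length ω)) else none]

/-- Number of published spam posts plus total cost paid on legitimate posts. -/
noncomputable def totC : List Bool → Hist → ℝ≥0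
  | [], _ => 0
  | g :: as, h => (if g = true then A h 1 ω else if A h 1 ω ≤ K then 1 else 0) +
      totC as (next A err K ω h g)

/-- Total resource paid by bad IDs. -/
noncomputable def totT : List Bool → Hist → ℝ≥0
  | [], _ => 0
  | g :: as, h => (if g = true then 0 else if A h 1 ω ≤ K then A h 1 ω else 0) +
      totT as (next A err K ω h g)

end Run

variable {Ω : Type} [MeasurableSpace Ω] {A : Hist → ℕ → Ω → ℝ≥0} {err : ℕ → Ω → Bool}

theorem totT_le (K : ℝ≥0) (ω : Ω) (as : List Bool) : ∀ h, totT A err K ω as h ≤ K * as.length := by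
  induction as with
  | nil => intro h; simp [totT]
  | cons g as ih =>
    intro h
    have h1 : (if g = true then 0 else if A h 1 ω ≤ K then A h 1 ω else 0) ≤ K := by
      split_ifs with h1 h2
      · exact zero_le
      · exact h2
      · exact zero_le
    simp only [totT, List.length_cons, Nat.cast_add, Nat.cast_one, mul_add, mul_one]
    rw [add_comm]
    exact add_le_add (ih _) h1

theorem exists_list (P : Measure Ω) [IsProbabilityMeasure P] (hA : ∀ h t, Measurable (A h t))
    (herr : ∀ i, Measurable (err i)) (c : ℝ≥0) (n : ℕ) :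
    ∀ H : Ω → Hist, @Measurable Ω Hist _ ⊤ H → ∃ as : List Bool, as.length = n ∧
      (n : ℝ≥0∞) / 2 + c * as.count true ≤ ∫⁻ ω, totC A err (2 * c + 1) ω as (H ω) ∂P := by
  letI : MeasurableSpace Hist := ⊤
  haveI : MeasurableSingletonClass Hist := ⟨fun _ => trivial⟩
  induction n with
  | zero => exact fun H _ => ⟨[], rfl, by simp⟩
  | succ n ih =>
    intro H hH
    have comp : ∀ {γ : Type} [MeasurableSpace γ] (f : Hist → Ω → γ), (∀ h, Measurable (f h)) →
        Measurable fun ω => f (H ω) ω := fun f hf =>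
      (measurable_from_prod_countable_right (f := fun p : Hist × Ω => f p.1 p.2) hf).comp
        (hH.prodMk measurable_id)
    have hx : Measurable fun ω => A (H ω) 1 ω := comp (fun h ω => A h 1 ω) fun h => hA h 1
    have hnext : ∀ g, Measurable fun ω => next A err (2 * c + 1) ω (H ω) g := by
      intro g
      refine comp (fun h ω => next A err (2 * c + 1) ω h g) fun h => ?_
      letI : MeasurableSpace (Option Bool) := ⊤
      refine (measurable_from_top (f := fun o : Option Bool => h ++ [o])).comp ?_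
      refine Measurable.ite ?_ ((measurable_of_countable fun b : Bool => some (xor g b)).comp
        (herr _)) measurable_const
      exact (MeasurableSet.const _).union
        (measurableSet_le (f := A h 1) (g := fun _ => 2 * c + 1) (hA h 1) measurable_const)
    have hs : MeasurableSet {ω | A (H ω) 1 ω ≤ 2 * c + 1} := measurableSet_le hx measurable_const
    have hadd : ((n + 1 : ℕ) : ℝ≥0∞) / 2 = 1 / 2 + (n : ℝ≥0∞) / 2 := by
      rw [Nat.cast_add, Nat.cast_one, ENNReal.add_div, add_comm]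
    by_cases hP : 1 / 2 ≤ P {ω | A (H ω) 1 ω ≤ 2 * c + 1}
    · obtain ⟨as, h1, h2⟩ := ih _ (hnext false)
      refine ⟨false :: as, by simp [h1], ?_⟩
      simp only [totC, Bool.false_eq_true, if_false, ENNReal.coe_add]
      rw [lintegral_add_left (by
        exact (Measurable.ite hs measurable_const measurable_const).coe_nnreal_ennreal), hadd,
        List.count_cons_of_ne (by simp), add_assoc]
      refine add_le_add (hP.trans (le_of_eq ?_)) h2
      rw [← lintegral_indicator_one hs]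
      refine lintegral_congr fun ω => ?_
      by_cases h : A (H ω) 1 ω ≤ 2 * c + 1 <;> simp [Set.indicator, h]
    · obtain ⟨as, h1, h2⟩ := ih _ (hnext true)
      refine ⟨true :: as, by simp [h1], ?_⟩
      simp only [totC, if_true, ENNReal.coe_add]
      rw [lintegral_add_left hx.coe_nnreal_ennreal, hadd, List.count_cons_self]
      have h3 : 1 / 2 ≤ P {ω | A (H ω) 1 ω ≤ 2 * c + 1}ᶜ := by
        rw [prob_compl_eq_one_sub hs]
        refine le_trans (le_of_eq ?_) (tsub_le_tsub_left (not_le.1 hP).le 1)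
        simp
      have h4 := mul_meas_ge_le_lintegral (μ := P) hx.coe_nnreal_ennreal ((2 * c + 1 : ℝ≥0) : ℝ≥0∞)
      have h5 : P {ω | A (H ω) 1 ω ≤ 2 * c + 1}ᶜ ≤
          P {ω | ((2 * c + 1 : ℝ≥0) : ℝ≥0∞) ≤ (A (H ω) 1 ω : ℝ≥0∞)} :=
        measure_mono fun ω hω => ENNReal.coe_le_coe.2 (le_of_lt (not_le.1 hω))
      have h6 : 1 / 2 + (c : ℝ≥0∞) ≤ ∫⁻ ω, A (H ω) 1 ω ∂P := by
        refine le_trans (le_of_eq ?_) ((mul_le_mul_right (h3.trans h5) _).trans h4)
        rw [ENNReal.coe_add, ENNReal.coe_mul, add_mul, ENNReal.coe_one, one_mul, add_comm,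
          mul_comm _ (c : ℝ≥0∞), mul_assoc]
        congr 1
        rw [ENNReal.coe_ofNat, one_div, ENNReal.mul_inv_cancel (by simp) (by simp), mul_one]
      refine le_trans (le_of_eq ?_) (add_le_add h6 h2)
      rw [Nat.cast_add, Nat.cast_one]
      ring

theorem result {Ω : Type} [MeasurableSpace Ω] (P : Measure Ω) [IsProbabilityMeasure P]
    (A : Hist → ℕ → Ω → ℝ≥0) (hA : ∀ h t, Measurable (A h t))
    (err : ℕ → Ω → Bool) (herr : ∀ i, Measurable (err i)) (c : ℝ≥0) (L : ℕ) (hL : 1 ≤ L) :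
    ∃ (K : ℝ≥0) (as : List Bool),
      (c : ℝ≥0∞) * ((∫⁻ ω, (totT A err K ω as [] : ℝ≥0∞) / L ∂P) ^ (2 / 3 : ℝ) +
          (as.count true : ℝ≥0∞) / L) <
        ∫⁻ ω, (totC A err K ω as [] : ℝ≥0∞) / L ∂P := by
  obtain ⟨m, hm⟩ := exists_nat_gt (2 * c * (2 * c + 1) ^ 2)
  obtain ⟨as, h1, h2⟩ := exists_list P hA herr c (L * m ^ 3) (fun _ => []) measurable_const
  refine ⟨2 * c + 1, as, ?_⟩
  set K : ℝ≥0 := 2 * c + 1 with hK
  have hL0 : (L : ℝ≥0∞) ≠ 0 := by exact_mod_cast (by omega : L ≠ 0)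
  have hLt : (L : ℝ≥0∞) ≠ ∞ := ENNReal.natCast_ne_top L
  have hK1 : 1 ≤ K := le_add_self
  have hT : ∫⁻ ω, (totT A err K ω as [] : ℝ≥0∞) / L ∂P ≤ ((K * m : ℝ≥0) : ℝ≥0∞) ^ (3 : ℕ) := by
    refine (lintegral_mono fun ω => ?_).trans (le_of_eq (by rw [lintegral_const, measure_univ,
      mul_one]))
    rw [ENNReal.div_le_iff hL0 hLt]
    have e1 := totT_le (A := A) (err := err) K ω as []
    rw [h1] at e1
    have e2 : K * ((L * m ^ 3 : ℕ) : ℝ≥0) ≤ (K * m) ^ 3 * L := by
      have : K ≤ K ^ 3 := le_self_pow₀ hK1 (by norm_num)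
      calc K * ((L * m ^ 3 : ℕ) : ℝ≥0) ≤ K ^ 3 * ((L * m ^ 3 : ℕ) : ℝ≥0) := by gcongr
        _ = _ := by push_cast; ring
    exact_mod_cast e1.trans e2
  have hT2 : (∫⁻ ω, (totT A err K ω as [] : ℝ≥0∞) / L ∂P) ^ (2 / 3 : ℝ) ≤
      ((K * m : ℝ≥0) : ℝ≥0∞) ^ (2 : ℕ) := by
    refine (ENNReal.rpow_le_rpow hT (by norm_num)).trans (le_of_eq ?_)
    rw [← ENNReal.rpow_natCast, ← ENNReal.rpow_mul, ← ENNReal.rpow_natCast]
    norm_num
  have hC : ((m : ℝ≥0∞) ^ 3 / 2 + c * ((as.count true : ℝ≥0∞) / L)) ≤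
      ∫⁻ ω, (totC A err K ω as [] : ℝ≥0∞) / L ∂P := by
    simp only [div_eq_mul_inv]
    rw [lintegral_mul_const' _ _ (ENNReal.inv_ne_top.2 hL0)]
    refine le_trans (le_of_eq ?_) (mul_le_mul_left h2 _)
    have : (L : ℝ≥0∞) * (L : ℝ≥0∞)⁻¹ = 1 := ENNReal.mul_inv_cancel hL0 hLt
    push_cast
    rw [div_eq_mul_inv]
    calc _ = (L : ℝ≥0∞) * (L : ℝ≥0∞)⁻¹ * ((m : ℝ≥0∞) ^ 3 * 2⁻¹) +
          c * ((as.count true : ℝ≥0∞) * (L : ℝ≥0∞)⁻¹) := by rw [this, one_mul]
      _ = _ := by ring
  refine lt_of_lt_of_le ?_ hC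
  rw [mul_add]
  refine ENNReal.add_lt_add_right (ENNReal.mul_ne_top ENNReal.coe_ne_top
    (ENNReal.div_ne_top (ENNReal.natCast_ne_top _) hL0)) ?_
  refine lt_of_le_of_lt (mul_le_mul_right hT2 _) ?_
  rw [ENNReal.lt_div_iff_mul_lt (by simp) (by simp)]
  have hm0 : (0 : ℝ≥0) < m := lt_of_le_of_lt zero_le hm
  have : c * (K * m) ^ 2 * 2 < (m : ℝ≥0) ^ 3 := by
    calc c * (K * m) ^ 2 * 2 = (2 * c * K ^ 2) * (m : ℝ≥0) ^ 2 := by ring
      _ < (m : ℝ≥0) * (m : ℝ≥0) ^ 2 := by gcongr
      _ = _ := by ring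
  exact_mod_cast this

end Pool.Agent.Results.MP_590456_lc.NoDefense
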